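import Mathlib
import Pool.Agent.R81.Sid.Tight

/-!
# Sidorenko exponents of tight cycles are linear in the length, for every uniformity

Outline. A tight cycle has maximum degree `r`, so this is a case of the linear bound for `r`-partite
`r`-graphs of bounded degree (`Pool.Agent.R81.Sid.sidorenkoExponent_le`): start with a random ordered
edge `(h_1, ..., h_r)` of `H` and replace the hidden vertices part by part; every vertex `v` of the
part `j` of `F` becomes a conditionally independent copy of `h_j` given `h_(j+1), ..., h_r` and the
images of the neighbours of `v` in the parts `1, ..., j - 1`.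
-/

set_option autoImplicit false

namespace Pool.Agent.Results.MP_c1a6cd_co.TightCycles

open Finset Pool.Agent.R81.Sid

/-- For every `r ≥ 2` (in particular for every `r ≥ 4`) there is a constant `K`, depending only on
`r`, such that `s(C_(r ℓ)^(r)) ≤ K r ℓ` for all `ℓ ≥ 2`. -/
theorem result : ∀ r : ℕ, 2 ≤ r → ∃ K : ℕ, ∀ ℓ : ℕ, 2 ≤ ℓ →
    sidorenkoExponent r (tightCycle r ℓ) ≤ ((K * (r * ℓ) : ℕ) : EReal) := by
  intro r hr
  exact ⟨1 + r * (2 * (r * r) + 1) ^ r, fun ℓ hℓ => tight_main hr (by omega)⟩

end Pool.Agent.Results.MP_c1a6cd_co.TightCycles
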